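import Mathlib
import Pool.Agent.H12.Hom2

namespace Pool.Agent.Results.MP_f6eb76_al.Embed

universe u

open MulOpposite

variable {K G V : Type u} [CommRing K] [Group G] [AddCommGroup V] [Module K V]

/-- `(W, H)` is a finitely generated subrepresentation of `(V, G)`; the right action is
`v g = ρ (op g) v` -/
def IsFGSub (ρ : Representation K Gᵐᵒᵖ V) (W : Submodule K V) (H : Subgroup G) : Prop :=
  (∀ h ∈ H, ∀ w ∈ W, ρ (op h) w ∈ W) ∧ H.FG ∧
    ∃ s : Finset V, W = Submodule.span K {x | ∃ h ∈ H, ∃ v ∈ s, x = ρ (op h) v}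

/-- every isomorphism of finitely generated subrepresentations extends to an automorphism -/
def Homogeneous (ρ : Representation K Gᵐᵒᵖ V) : Prop :=
  ∀ (W₁ W₂ : Submodule K V) (H₁ H₂ : Subgroup G), IsFGSub ρ W₁ H₁ → IsFGSub ρ W₂ H₂ →
    ∀ (α : W₁ ≃ₗ[K] W₂) (β : H₁ ≃* H₂),
      (∀ (h : H₁) (w w' : W₁), (w' : V) = ρ (op (h : G)) w →
        (α w' : V) = ρ (op (β h : G)) (α w)) →
      ∃ (a : V ≃ₗ[K] V) (b : G ≃* G), (∀ g v, a (ρ (op g) v) = ρ (op (b g)) (a v)) ∧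
        (∀ w : W₁, a w = α w) ∧ ∀ h : H₁, b h = β h

open Pool.Agent.H12.Hom1 Pool.Agent.H12.Hom2 in
theorem result (K G V : Type u) [CommRing K] [Group G] [AddCommGroup V] [Module K V]
    (ρ : Representation K Gᵐᵒᵖ V) :
    ∃ (G' V' : Type u) (_ : Group G') (_ : AddCommGroup V') (_ : Module K V')
      (ρ' : Representation K G'ᵐᵒᵖ V'), Homogeneous ρ' ∧
      ∃ (α : V →ₗ[K] V') (β : G →* G'), Function.Injective α ∧ Function.Injective β ∧
        ∀ g v, α (ρ (op g) v) = ρ' (op (β g)) (α v) := by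
  let R : Rp K := ⟨G, V, ρ.comp (MulEquiv.inv' G).toMonoidHom⟩
  let ρ' : Representation K (LG R)ᵐᵒᵖ (LV R) :=
    (lρ R).comp (MulEquiv.inv' (LG R)).symm.toMonoidHom
  have e : ∀ g, ρ' (op g) = lρ R g⁻¹ := fun _ => rfl
  refine ⟨LG R, LV R, inferInstance, inferInstance, inferInstance, ρ', ?_, ov R 0, og R 0,
    ov_inj R 0, og_inj R 0, fun g v => ?_⟩
  · rintro W₁ W₂ H₁ H₂ ⟨a1, a2, s₁, a3⟩ ⟨-, b2, s₂, b3⟩ α β hc
    have es : ∀ (H : Subgroup (LG R)) (s : Finset (LV R)),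
        {x | ∃ h ∈ H, ∃ v ∈ s, x = ρ' (op h) v} = {x | ∃ h ∈ H, ∃ v ∈ s, x = lρ R h v} := by
      intro H s
      ext x
      constructor
      · rintro ⟨h, hh, v, hv, rfl⟩
        exact ⟨h⁻¹, H.inv_mem hh, v, hv, rfl⟩
      · rintro ⟨h, hh, v, hv, rfl⟩
        exact ⟨h⁻¹, H.inv_mem hh, v, hv, by rw [e, inv_inv]⟩
    rw [es] at a3 b3
    obtain ⟨t, t1, t2⟩ := homog R H₁ H₂ W₁ W₂ a2 b2 s₁ s₂ a3 b3
      (fun h hh w hw => by
        have := a1 h⁻¹ (H₁.inv_mem hh) w hw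
        rwa [e, inv_inv] at this) α β
      (fun h w w' hw => by
        have := hc h⁻¹ w w' (by rw [e, Subgroup.coe_inv, inv_inv]; exact hw)
        rwa [e, map_inv β, Subgroup.coe_inv, inv_inv] at this)
    refine ⟨LinearEquiv.ofLinearMap (lρ R t) (lρ R t⁻¹)
      (by rw [← Module.End.mul_eq_comp, ← map_mul]; simp; rfl)
      (by rw [← Module.End.mul_eq_comp, ← map_mul]; simp; rfl), MulAut.conj t, fun g v => ?_,
      t1, t2⟩
    show lρ R t (lρ R g⁻¹ v) = lρ R (t * g * t⁻¹)⁻¹ (lρ R t v)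
    rw [← Module.End.mul_apply, ← Module.End.mul_apply, ← map_mul, ← map_mul]
    congr 2
    group
  · have := lρ_def R 0 (g⁻¹ : G) v
    rw [e, ← map_inv]
    refine Eq.trans ?_ this.symm
    show ov R 0 (ρ (op g) v) = ov R 0 (ρ (op g⁻¹⁻¹) v)
    rw [inv_inv]

end Pool.Agent.Results.MP_f6eb76_al.Embed
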